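import Mathlib
import Pool.Agent.H35.Asm

set_option autoImplicit false

/-!
# Lattice points of dilated convex hulls are vertex-isoperimetrically optimal

For every dimension `d ≥ 1` and every finite set `U` generating the group `ℤ^d`, ALL sufficiently large
dilates `U(t)` of the convex hull of `U ∪ {0}` have the minimum vertex boundary among all sets of
their size in the directed Cayley graph of `ℤ^d` with respect to `U`.
-/

namespace Pool.Agent.Results.MP_d0f6b1_co.AllLargeDilates

open Filter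

/-- The set `U(t)`: the integer points `x` of the form `x = t · y`, where `y` is a point of the convex
hull in `ℝ^d` of the set `U ∪ {0}`. -/
def dilate {d : ℕ} (U : Finset (Fin d → ℤ)) (t : ℕ) : Set (Fin d → ℤ) :=
  {x | ∃ y ∈ convexHull ℝ {z : Fin d → ℝ | z = 0 ∨ ∃ u ∈ U, ∀ i, z i = (u i : ℝ)},
    ∀ i, (x i : ℝ) = (t : ℝ) * y i}

/-- The outer vertex boundary of `A` in the directed Cayley graph with the edges `(g, g + u)`,
`u ∈ U`: all vertices `v` outside of `A` at which an edge `(a, v)` with `a ∈ A` ends. -/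
def outerBoundary {d : ℕ} (U : Finset (Fin d → ℤ)) (A : Set (Fin d → ℤ)) : Set (Fin d → ℤ) :=
  {v | v ∉ A ∧ ∃ a ∈ A, ∃ u ∈ U, v = a + u}

/-- The numbers `|∂A|` for the `n`-element sets `A` of vertices; its least element is the
minimum vertex boundary of the `n`-element sets. -/
def boundarySizes {d : ℕ} (U : Finset (Fin d → ℤ)) (n : ℕ) : Set ℕ :=
  {b | ∃ A : Set (Fin d → ℤ), A.Finite ∧ A.ncard = n ∧ b = (outerBoundary U A).ncard}

section
open scoped Pointwise
variable {d : ℕ}

private lemma hull_eq (U : Finset (Fin d → ℤ)) :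
    {z : Fin d → ℝ | z = 0 ∨ ∃ u ∈ U, ∀ i, z i = (u i : ℝ)} =
      insert (0 : Fin d → ℝ) ((fun u : Fin d → ℤ => fun i => (u i : ℝ)) '' (U : Set (Fin d → ℤ))) := by
  ext z
  simp only [Set.mem_ofPred_eq, Set.mem_insert_iff, Set.mem_image, Finset.mem_coe]
  constructor
  · rintro (h | ⟨u, hu, h⟩)
    · exact Or.inl h
    · exact Or.inr ⟨u, hu, (funext h).symm⟩
  · rintro (h | ⟨u, hu, h⟩)
    · exact Or.inl h
    · exact Or.inr ⟨u, hu, fun i => (congrFun h i).symm⟩

private lemma dilate_eq (U : Finset (Fin d → ℤ)) (t : ℕ) :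
    dilate U t = {x : Fin d → ℤ | (fun i => (x i : ℝ)) ∈
      (t : ℝ) • convexHull ℝ (insert (0 : Fin d → ℝ)
        ((fun u : Fin d → ℤ => fun i => (u i : ℝ)) '' (U : Set (Fin d → ℤ))))} := by
  unfold dilate
  rw [hull_eq]
  ext x
  simp only [Set.mem_ofPred_eq, Set.mem_smul_set]
  constructor
  · rintro ⟨y, hy, h⟩
    exact ⟨y, hy, funext fun i => (h i).symm⟩
  · rintro ⟨y, hy, h⟩
    exact ⟨y, hy, fun i => (congrFun h i).symm⟩

private lemma zero_mem_dilate (U : Finset (Fin d → ℤ)) (t : ℕ) : (0 : Fin d → ℤ) ∈ dilate U t :=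
  ⟨0, subset_convexHull ℝ _ (Or.inl rfl), fun i => by simp⟩

private lemma outerBoundary_finset (U A : Finset (Fin d → ℤ)) :
    (outerBoundary U (A : Set (Fin d → ℤ))).ncard = H35.bd U A := by
  classical
  have h : outerBoundary U (A : Set (Fin d → ℤ)) = (((A + U) \ A : Finset (Fin d → ℤ)) : Set _) := by
    ext v
    simp only [outerBoundary, Set.mem_ofPred_eq, Finset.mem_coe, Finset.mem_sdiff, Finset.mem_add]
    constructor
    · rintro ⟨h1, a, ha, u, hu, rfl⟩
      exact ⟨⟨a, ha, u, hu, rfl⟩, h1⟩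
    · rintro ⟨⟨a, ha, u, hu, rfl⟩, h1⟩
      exact ⟨h1, a, ha, u, hu, rfl⟩
  rw [h, Set.ncard_coe_finset]
  rfl

end

/-- For every `d ≥ 1` and every finite generating set `U` of the group `ℤ^d` there is a `t₀ ≥ 1` such
that for EVERY integer `t ≥ t₀` the set `U(t)` is finite, contains `0`, and its vertex boundary is
the minimum of the vertex boundaries of all sets of `|U(t)|` vertices; the value of this minimum is
`|U(t + 1)| - |U(t)|`. -/
theorem result (d : ℕ) (hd : 1 ≤ d) (U : Finset (Fin d → ℤ))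
    (hU : AddSubgroup.closure (U : Set (Fin d → ℤ)) = ⊤) :
    ∃ t₀ : ℕ, 1 ≤ t₀ ∧ ∀ t : ℕ, t₀ ≤ t →
      (dilate U t).Finite ∧ (0 : Fin d → ℤ) ∈ dilate U t ∧
      IsLeast (boundarySizes U (dilate U t).ncard) (outerBoundary U (dilate U t)).ncard ∧
      (outerBoundary U (dilate U t)).ncard + (dilate U t).ncard = (dilate U (t + 1)).ncard := by
  classical
  obtain ⟨r, rfl⟩ : ∃ r, d = r + 1 := ⟨d - 1, by omega⟩
  obtain ⟨_, _, _, hfin, _, _, hrep⟩ := H35.geometry U hU
  have hBU : ∀ t : ℕ, 0 < t → dilate U t = H35.Us (insert 0 U) t := by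
    intro t ht
    rw [dilate_eq]
    ext x
    exact H35.mem_Us_iff U hrep t ht x
  have hmono : ∀ t, H35.Us (insert 0 U) t ⊆ H35.Us (insert 0 U) (t + 1) := by
    intro t x hx
    have := H35.Us_add hx (Finset.mem_insert_self 0 U)
    rwa [add_zero] at this
  obtain ⟨t₁, ht₁⟩ := eventually_atTop.1 (H35.eventually_bound r U hU)
  refine ⟨max t₁ 1, le_max_right _ _, fun t ht => ?_⟩
  have hpos : 0 < t := lt_of_lt_of_le Nat.one_pos ((le_max_right _ _).trans ht)
  have hbound := ht₁ t ((le_max_left _ _).trans ht)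
  have e1 := hBU t hpos
  have e2 := hBU (t + 1) (by omega)
  have hf : (dilate U t).Finite := by rw [e1]; exact hfin t
  -- the upper bound for the boundary of the dilate
  have hup : (outerBoundary U (dilate U t)).ncard + (dilate U t).ncard ≤
      (dilate U (t + 1)).ncard := by
    have h1 : outerBoundary U (dilate U t) ⊆
        H35.Us (insert 0 U) (t + 1) \ H35.Us (insert 0 U) t := by
      rw [e1]
      rintro v ⟨h2, a, ha, u, hu, rfl⟩
      exact ⟨H35.Us_add ha (Finset.mem_insert_of_mem hu), h2⟩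
    have h2 := Set.ncard_le_ncard h1 ((hfin (t + 1)).subset Set.sdiff_subset)
    have h3 := Set.ncard_sdiff_add_ncard_of_subset (hmono t) (hfin (t + 1))
    rw [e2, e1]
    rw [e1] at h2
    omega
  -- the lower bound for the boundary of every set
  have hlow : ∀ A : Set (Fin (r + 1) → ℤ), A.Finite → A.ncard = (dilate U t).ncard →
      (dilate U (t + 1)).ncard ≤ (dilate U t).ncard + (outerBoundary U A).ncard := by
    intro A hA hcard
    have h1 : ((hA.toFinset : Finset (Fin (r + 1) → ℤ)) : Set (Fin (r + 1) → ℤ)) = A :=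
      hA.coe_toFinset
    have h2 : hA.toFinset.card = (H35.Us (insert 0 U) t).ncard := by
      rw [← e1, ← hcard, ← Set.ncard_coe_finset, h1]
    have h3 := hbound hA.toFinset h2
    rw [← outerBoundary_finset, h1] at h3
    rw [e2, e1]
    exact h3
  have hself := hlow _ hf rfl
  refine ⟨hf, zero_mem_dilate U t, ⟨⟨dilate U t, hf, rfl, rfl⟩, ?_⟩, by omega⟩
  rintro b ⟨A, hA, hcard, rfl⟩
  have h1 := hlow A hA hcard
  omega

end Pool.Agent.Results.MP_d0f6b1_co.AllLargeDilates
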